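import Pool.Agent.H223.EM.MDefs
import Pool.Agent.H831R2.SMT5

set_option autoImplicit false

/-!
# Eighth moment of zeta, task MB1 (`B2_part`), adapted from `Pool.Agent.H831R2.SMT5`
-/

namespace Pool.Agent.H697.EM.MB1

open Finset Filter Topology MeasureTheory Complex Pool.Agent.H306R2 Pool.Agent.H306R2.SM
open Pool.Agent.H223.EM
open Pool.Agent.H831R2.SMT5 (tendsto_pow_exp om_nonneg om_ef_integrable om_ef_norm_le ef_zero
  om_integral om_mul_integrable shift Wf Wf_cl Wf_differentiable Wf_norm_le norm_cpow_neg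
  cl_re cl_im cl_sub_one cl_ne_one cl_continuous ef_continuous ef_norm om_shift_integrable log_sep
  cpow_cl ef_mul)

noncomputable section

/-! ### The Dirichlet series -/

lemma zR_sq (n : ℕ) : (zR ^ 2) n = d2 n := by
  rw [pow_two, ArithmeticFunction.mul_apply]
  have h : ∀ x ∈ n.divisorsAntidiagonal, zR x.1 * zR x.2 = 1 := by
    intro x hx
    rw [Nat.mem_divisorsAntidiagonal] at hx
    have h1 : x.1 ≠ 0 := by
      intro h; rw [h, zero_mul] at hx; exact hx.2 hx.1.symm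
    have h2 : x.2 ≠ 0 := by
      intro h; rw [h, mul_zero] at hx; exact hx.2 hx.1.symm
    simp [zR, ArithmeticFunction.natCoe_apply, ArithmeticFunction.zeta_apply, h1, h2]
  rw [Finset.sum_congr rfl h, Finset.sum_const, ← Nat.map_div_right_divisors, Finset.card_map]
  simp [d2]

lemma d2_nonneg (n : ℕ) : 0 ≤ d2 n := by unfold d2; positivity

lemma d2_zero : d2 0 = 0 := by simp [d2]

lemma d2_le (n : ℕ) : d2 n ≤ (n : ℝ) ^ 3 := by
  rcases Nat.eq_zero_or_pos n with h | h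
  · subst h; simp [d2_zero]
  · have h1 : d2 n ≤ n := by
      unfold d2
      exact_mod_cast Nat.card_divisors_le_self n
    have h2 : (1 : ℝ) ≤ n := by exact_mod_cast h
    calc d2 n ≤ (n : ℝ) ^ 1 := by rw [pow_one]; exact h1
      _ ≤ (n : ℝ) ^ 3 := pow_le_pow_right₀ h2 (by norm_num)

lemma zeta_hasSum (s : ℂ) (hs : 1 < s.re) :
    HasSum (fun n : ℕ => (d2 n : ℂ) * (n : ℂ) ^ (-s)) (riemannZeta s ^ 2) := by
  have h := zetaA_hasSum 2 1 1 (by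
    intro n hn
    rw [ArithmeticFunction.one_apply_ne]
    rintro rfl
    simp at hn) s hs
  have h2 : Dp (1 : ArithmeticFunction ℝ) 1 s = 1 := by
    unfold Dp; simp
  rw [h2, mul_one, mul_one] at h
  simpa only [zR_sq] using h

/-- the Dirichlet polynomial -/
def Pp (N : ℕ) (s : ℂ) : ℂ := ∑ m ∈ range N, (d2 m : ℂ) * (m : ℂ) ^ (-s)

/-- the remainder -/
def gg (N : ℕ) (s : ℂ) : ℂ := riemannZeta s ^ 2 - Pp N s

lemma Pp_norm_le (N : ℕ) (s : ℂ) (hs : 0 ≤ s.re) : ‖Pp N s‖ ≤ (N : ℝ) ^ 4 := by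
  unfold Pp
  calc ‖∑ m ∈ range N, (d2 m : ℂ) * (m : ℂ) ^ (-s)‖
      ≤ ∑ m ∈ range N, ‖(d2 m : ℂ) * (m : ℂ) ^ (-s)‖ := norm_sum_le _ _
    _ ≤ ∑ _m ∈ range N, (N : ℝ) ^ 3 := by
        refine sum_le_sum fun m hm => ?_
        rw [mem_range] at hm
        rcases Nat.eq_zero_or_pos m with rfl | hm0
        · rw [d2_zero]
          simp
        · rw [norm_mul, Complex.norm_real, Real.norm_eq_abs, abs_of_nonneg (d2_nonneg m),
            norm_cpow_neg m hm0]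
          have h1 : (m : ℝ) ^ (-s.re) ≤ 1 := by
            apply Real.rpow_le_one_of_one_le_of_nonpos
            · exact_mod_cast hm0
            · linarith
          have h2 : (m : ℝ) ≤ N := by exact_mod_cast hm.le
          calc d2 m * (m : ℝ) ^ (-s.re) ≤ (m : ℝ) ^ 3 * 1 := by
                apply mul_le_mul (d2_le m) h1 (by positivity) (by positivity)
            _ = (m : ℝ) ^ 3 := mul_one _
            _ ≤ (N : ℝ) ^ 3 := by gcongr
    _ = (N : ℝ) ^ 4 := by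
        rw [sum_const, card_range, nsmul_eq_mul]
        ring

lemma Pp_differentiableAt (N : ℕ) (s : ℂ) : DifferentiableAt ℂ (Pp N) s := by
  unfold Pp
  apply DifferentiableAt.fun_sum
  intro m _
  rcases Nat.eq_zero_or_pos m with rfl | hm0
  · rw [d2_zero]
    simp
  · apply DifferentiableAt.const_mul
    apply DifferentiableAt.const_cpow differentiableAt_id.neg
    left
    exact_mod_cast hm0.ne'

/-- the constant `∑ d2(m) m^{-2}` -/
def C2 : ℝ := ∑' m : ℕ, d2 m * (m : ℝ) ^ (-2 : ℝ)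

lemma summable_two : Summable (fun m : ℕ => d2 m * (m : ℝ) ^ (-2 : ℝ)) := by
  have h := (zeta_hasSum 2 (by norm_num)).summable.norm
  refine h.congr fun m => ?_
  rcases Nat.eq_zero_or_pos m with rfl | hm0
  · rw [d2_zero]
    simp
  · rw [norm_mul, Complex.norm_real, Real.norm_eq_abs, abs_of_nonneg (d2_nonneg m),
      norm_cpow_neg m hm0]
    norm_num

lemma C2_nonneg : 0 ≤ C2 := tsum_nonneg fun m => mul_nonneg (d2_nonneg m) (by positivity)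

lemma gg_right (N : ℕ) (hN : 0 < N) (s : ℂ) (hs : s.re = 3) : ‖gg N s‖ ≤ C2 / N := by
  have h := zeta_hasSum s (by rw [hs]; norm_num)
  have h1 : gg N s = ∑' m : ℕ, (d2 (m + N) : ℂ) * ((m + N : ℕ) : ℂ) ^ (-s) := by
    unfold gg Pp
    rw [← h.tsum_eq, ← h.summable.sum_add_tsum_nat_add N]
    ring
  rw [h1]
  have hs2 := (summable_nat_add_iff N).2 summable_two
  have hb : ∀ m : ℕ, ‖(d2 (m + N) : ℂ) * ((m + N : ℕ) : ℂ) ^ (-s)‖ ≤
      (d2 (m + N) * ((m + N : ℕ) : ℝ) ^ (-2 : ℝ)) / N := by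
    intro m
    have hm0 : 0 < m + N := by omega
    have hpos : (0 : ℝ) < ((m + N : ℕ) : ℝ) := by exact_mod_cast hm0
    rw [norm_mul, Complex.norm_real, Real.norm_eq_abs, abs_of_nonneg (d2_nonneg _),
      norm_cpow_neg _ hm0, hs, mul_div_assoc]
    apply mul_le_mul_of_nonneg_left _ (d2_nonneg _)
    have e : ((m + N : ℕ) : ℝ) ^ (-3 : ℝ) = ((m + N : ℕ) : ℝ) ^ (-2 : ℝ) / ((m + N : ℕ) : ℝ) := by
      rw [show (-3 : ℝ) = -2 - 1 by norm_num, Real.rpow_sub hpos, Real.rpow_one]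
    rw [e]
    apply div_le_div_of_nonneg_left (by positivity) (by exact_mod_cast hN)
    push_cast
    linarith [(Nat.cast_nonneg m : (0 : ℝ) ≤ m)]
  calc ‖∑' m : ℕ, (d2 (m + N) : ℂ) * ((m + N : ℕ) : ℂ) ^ (-s)‖
      ≤ ∑' m : ℕ, (d2 (m + N) * ((m + N : ℕ) : ℝ) ^ (-2 : ℝ)) / N :=
        tsum_of_norm_bounded (hs2.div_const _).hasSum hb
    _ = (∑' m : ℕ, (d2 (m + N) * ((m + N : ℕ) : ℝ) ^ (-2 : ℝ))) / N := tsum_div_const
    _ ≤ C2 / N := by
        apply div_le_div_of_nonneg_right _ (by positivity)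
        unfold C2
        rw [← summable_two.sum_add_tsum_nat_add N]
        have : 0 ≤ ∑ i ∈ range N, d2 i * (i : ℝ) ^ (-2 : ℝ) :=
          sum_nonneg fun m _ => mul_nonneg (d2_nonneg m) (by positivity)
        linarith

/-- growth of the remainder -/
lemma gg_norm_le (N : ℕ) (s : ℂ) (h1 : 1 / 2 ≤ s.re) (h2 : s.re ≤ 3) (h3 : 0 ≤ s.im)
    (h4 : 1 / 2 ≤ ‖s - 1‖) :
    ‖gg N s‖ ≤ (216 * 4 ^ 6 + (N : ℝ) ^ 4) * (1 + s.im) ^ 6 := by
  have hz := zeta_norm_le h1 h4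
  have hs : ‖s‖ ≤ 3 + s.im := by
    refine (Complex.norm_le_abs_re_add_abs_im _).trans ?_
    rw [abs_of_nonneg (by linarith), abs_of_nonneg h3]
    linarith
  have h5 : ‖riemannZeta s‖ ≤ 6 * (4 * (1 + s.im)) ^ 2 := by
    refine hz.trans ?_
    gcongr
    linarith
  have h7 : (1 : ℝ) ≤ (1 + s.im) ^ 6 := one_le_pow₀ (by linarith)
  have h46 : (1 + s.im) ^ 4 ≤ (1 + s.im) ^ 6 := pow_le_pow_right₀ (by linarith) (by norm_num)
  have h6 : ‖riemannZeta s ^ 2‖ ≤ 216 * 4 ^ 6 * (1 + s.im) ^ 6 := by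
    rw [norm_pow]
    calc ‖riemannZeta s‖ ^ 2 ≤ (6 * (4 * (1 + s.im)) ^ 2) ^ 2 :=
          pow_le_pow_left₀ (norm_nonneg _) h5 2
      _ = 36 * 4 ^ 4 * (1 + s.im) ^ 4 := by ring
      _ ≤ 36 * 4 ^ 4 * (1 + s.im) ^ 6 := by gcongr
      _ ≤ _ := by nlinarith
  have h8 := Pp_norm_le N s (by linarith)
  unfold gg
  calc ‖riemannZeta s ^ 2 - Pp N s‖ ≤ ‖riemannZeta s ^ 2‖ + ‖Pp N s‖ := norm_sub_le _ _
    _ ≤ 216 * 4 ^ 6 * (1 + s.im) ^ 6 + (N : ℝ) ^ 4 * (1 + s.im) ^ 6 := by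
        apply add_le_add h6
        calc ‖Pp N s‖ ≤ (N : ℝ) ^ 4 * 1 := by rw [mul_one]; exact h8
          _ ≤ (N : ℝ) ^ 4 * (1 + s.im) ^ 6 := by gcongr
    _ = _ := by ring

/-! ### The integrand -/

lemma gg_continuousAt (N : ℕ) (s : ℂ) (hs : s ≠ 1) : DifferentiableAt ℂ (gg N) s := by
  unfold gg
  exact ((differentiableAt_riemannZeta hs).pow 2).sub (Pp_differentiableAt N s)

lemma gg_cl_continuous (N : ℕ) : Continuous (fun t : ℝ => gg N (cl t)) := by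
  rw [continuous_iff_continuousAt]
  intro t
  exact ContinuousAt.comp (gg_continuousAt N _ (cl_ne_one t)).continuousAt
    cl_continuous.continuousAt

/-- the frequency -/
def fr (P Q : ℕ) : ℝ := Real.log ((P : ℝ) / Q)

lemma fr_le (P Q : ℕ) (hP : 1 ≤ P) (hQ : 1 ≤ Q) : fr P Q ≤ Real.log P := by
  unfold fr
  have hP0 : (0 : ℝ) < P := by exact_mod_cast hP
  have hQ0 : (1 : ℝ) ≤ Q := by exact_mod_cast hQ
  apply Real.log_le_log (by positivity)
  exact div_le_self hP0.le hQ0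

lemma fr_eq (P Q : ℕ) (hP : 1 ≤ P) (hQ : 1 ≤ Q) : fr P Q = Real.log P - Real.log Q := by
  unfold fr
  have hP0 : (P : ℝ) ≠ 0 := by exact_mod_cast (by omega : P ≠ 0)
  have hQ0 : (Q : ℝ) ≠ 0 := by exact_mod_cast (by omega : Q ≠ 0)
  exact Real.log_div hP0 hQ0

/-- the integrand, analytic version -/
def ff (k : ℕ) (δ : ℝ) (P Q N : ℕ) (s : ℂ) : ℂ :=
  Wf k δ s * gg N s * cexp ((s - 1 / 2) * (fr P Q : ℂ))

lemma ff_cl (k : ℕ) (δ : ℝ) (P Q N : ℕ) (t : ℝ) :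
    ff k δ P Q N (cl t) = (om k δ t : ℂ) * (gg N (cl t) * ef (fr P Q) t) := by
  unfold ff ef
  rw [Wf_cl, mul_assoc]
  congr 3
  unfold cl
  push_cast
  ring

lemma exp_norm (P Q : ℕ) (hP : 1 ≤ P) (hQ : 1 ≤ Q) (s : ℂ) (hs0 : 1 / 2 ≤ s.re) (hs : s.re ≤ 3) :
    ‖cexp ((s - 1 / 2) * (fr P Q : ℂ))‖ ≤ (P : ℝ) ^ (5 / 2 : ℝ) := by
  have hn0 : (0 : ℝ) < P := by exact_mod_cast hP
  rw [Complex.norm_exp, Complex.re_mul_ofReal, Real.rpow_def_of_pos hn0]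
  apply Real.exp_le_exp.mpr
  have e : (s - 1 / 2).re = s.re - 1 / 2 := by simp
  rw [e]
  have h1 := fr_le P Q hP hQ
  have h2 : 0 ≤ Real.log P := Real.log_nonneg (by exact_mod_cast hP)
  calc (s.re - 1 / 2) * fr P Q ≤ (s.re - 1 / 2) * Real.log P :=
        mul_le_mul_of_nonneg_left h1 (by linarith)
    _ ≤ 5 / 2 * Real.log P := mul_le_mul_of_nonneg_right (by linarith) h2
    _ = _ := by ring

/-- the majorant -/
def mj (k : ℕ) (δ : ℝ) (n N : ℕ) (τ : ℝ) : ℝ :=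
  (Real.exp (5 / 2 * δ) * (δ ^ (k + 1) / (k.factorial : ℝ)) * (216 * 4 ^ 6 + (N : ℝ) ^ 4) *
    (n : ℝ) ^ (5 / 2 : ℝ)) * ((τ + 5 / 2) ^ (k + 6) * Real.exp (-(δ * (τ + 5 / 2))))

lemma mj_tendsto (k : ℕ) (δ : ℝ) (hδ : 0 < δ) (n N : ℕ) :
    Tendsto (mj k δ n N) atTop (𝓝 0) := by
  have h := ((tendsto_pow_exp δ hδ (k + 6)).comp
    (tendsto_atTop_add_const_right atTop (5 / 2 : ℝ) tendsto_id)).const_mul
    (Real.exp (5 / 2 * δ) * (δ ^ (k + 1) / (k.factorial : ℝ)) * (216 * 4 ^ 6 + (N : ℝ) ^ 4) *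
    (n : ℝ) ^ (5 / 2 : ℝ))
  rw [mul_zero] at h
  exact h

lemma ff_norm_le (k : ℕ) (δ : ℝ) (hδ : 0 < δ) (P Q N : ℕ) (hP : 1 ≤ P) (hQ : 1 ≤ Q) (s : ℂ)
    (h1 : 1 / 2 ≤ s.re) (h2 : s.re ≤ 3) (h3 : 1 ≤ s.im) : ‖ff k δ P Q N s‖ ≤ mj k δ P N s.im := by
  have h4 : 1 / 2 ≤ ‖s - 1‖ := by
    have h := Complex.abs_im_le_norm (s - 1)
    have e : (s - 1).im = s.im := by simp
    rw [e, abs_of_nonneg (by linarith)] at h
    linarith
  unfold ff
  rw [norm_mul, norm_mul]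
  have hW := Wf_norm_le k δ hδ.le s h1 h2 (by linarith)
  have hG := gg_norm_le N s h1 h2 (by linarith) h4
  have hE := exp_norm P Q hP hQ s h1 h2
  have hom : 0 ≤ om k δ (s.im + 5 / 2) := om_nonneg k δ _ hδ.le (by linarith)
  calc ‖Wf k δ s‖ * ‖gg N s‖ * ‖cexp ((s - 1 / 2) * (fr P Q : ℂ))‖
      ≤ (Real.exp (5 / 2 * δ) * om k δ (s.im + 5 / 2)) *
          ((216 * 4 ^ 6 + (N : ℝ) ^ 4) * (1 + s.im) ^ 6) * (P : ℝ) ^ (5 / 2 : ℝ) := by
        gcongr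
    _ ≤ (Real.exp (5 / 2 * δ) * om k δ (s.im + 5 / 2)) *
          ((216 * 4 ^ 6 + (N : ℝ) ^ 4) * (s.im + 5 / 2) ^ 6) * (P : ℝ) ^ (5 / 2 : ℝ) := by
        gcongr _ * (_ * ?_ ^ 6) * _
        linarith
    _ = mj k δ P N s.im := by
        unfold mj om
        rw [pow_add (s.im + 5 / 2) k 6]
        ring

lemma ff_differentiableOn (k : ℕ) (δ : ℝ) (P Q N : ℕ) :
    DifferentiableOn ℂ (ff k δ P Q N) {s | 1 / 2 ≤ s.re ∧ s.re ≤ 3 ∧ 1 ≤ s.im} := by
  intro s hs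
  have hs1 : s ≠ 1 := by
    rintro rfl
    have := hs.2.2
    simp at this
    norm_num at this
  apply DifferentiableAt.differentiableWithinAt
  unfold ff
  refine ((Wf_differentiable k δ s).mul (gg_continuousAt N s hs1)).mul ?_
  fun_prop

/-- integrability on the critical line -/
lemma ff_cl_integrable (k : ℕ) (δ : ℝ) (hδ : 0 < δ) (P Q N : ℕ) :
    IntegrableOn (fun t : ℝ => (om k δ t : ℂ) * (gg N (cl t) * ef (fr P Q) t)) (Set.Ioi 0) := by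
  apply om_mul_integrable k δ hδ _ ((gg_cl_continuous N).mul (ef_continuous _))
    (216 * 4 ^ 6 + (N : ℝ) ^ 4) 6
  intro t ht
  change ‖gg N (cl t) * ef (fr P Q) t‖ ≤ _
  rw [norm_mul, ef_norm, mul_one]
  have := gg_norm_le N (cl t) (by rw [cl_re]) (by rw [cl_re]; norm_num) (by rw [cl_im]; exact ht)
    (cl_sub_one t)
  rwa [cl_im] at this

/-- the right line -/
lemma right_line (k : ℕ) (δ : ℝ) (hδ : 0 < δ) (P Q N : ℕ) (hP : 1 ≤ P) (hQ : 1 ≤ Q) (hN : 0 < N) :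
    IntegrableOn (fun y : ℝ => ff k δ P Q N (((3 : ℝ) : ℂ) + y * I)) (Set.Ioi 1) ∧
      ‖∫ y in Set.Ioi (1 : ℝ), ff k δ P Q N (((3 : ℝ) : ℂ) + y * I)‖ ≤
        Real.exp (5 / 2 * δ) * (C2 / N) * (P : ℝ) ^ (5 / 2 : ℝ) := by
  have hb : ∀ᵐ y : ℝ ∂(volume.restrict (Set.Ioi 1)), ‖ff k δ P Q N (((3 : ℝ) : ℂ) + y * I)‖ ≤
      Real.exp (5 / 2 * δ) * (C2 / N) * (P : ℝ) ^ (5 / 2 : ℝ) * om k δ (y + 5 / 2) := by
    filter_upwards [ae_restrict_mem measurableSet_Ioi] with y hy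
    have hy1 : (1 : ℝ) < y := hy
    have e1 : (((3 : ℝ) : ℂ) + y * I).re = 3 := by simp
    have e2 : (((3 : ℝ) : ℂ) + y * I).im = y := by simp
    have hW := Wf_norm_le k δ hδ.le (((3 : ℝ) : ℂ) + y * I) (by rw [e1]; norm_num)
      (by rw [e1]) (by rw [e2]; linarith)
    rw [e2] at hW
    have hG := gg_right N hN (((3 : ℝ) : ℂ) + y * I) e1
    have hE := exp_norm P Q hP hQ (((3 : ℝ) : ℂ) + y * I) (by rw [e1]; norm_num) (by rw [e1])
    have hom : 0 ≤ om k δ (y + 5 / 2) := om_nonneg k δ _ hδ.le (by linarith)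
    have hC := C2_nonneg
    unfold ff
    rw [norm_mul, norm_mul]
    calc ‖Wf k δ (((3 : ℝ) : ℂ) + y * I)‖ * ‖gg N (((3 : ℝ) : ℂ) + y * I)‖ *
          ‖cexp ((((3 : ℝ) : ℂ) + y * I - 1 / 2) * (fr P Q : ℂ))‖
        ≤ (Real.exp (5 / 2 * δ) * om k δ (y + 5 / 2)) * (C2 / N) * (P : ℝ) ^ (5 / 2 : ℝ) := by
          gcongr
      _ = _ := by ring
  have hbi : Integrable (fun y : ℝ => Real.exp (5 / 2 * δ) * (C2 / N) * (P : ℝ) ^ (5 / 2 : ℝ) *
      om k δ (y + 5 / 2)) (volume.restrict (Set.Ioi 1)) :=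
    (om_shift_integrable k δ hδ).1.const_mul _
  constructor
  · refine Integrable.mono' hbi ?_ hb
    apply ContinuousOn.aestronglyMeasurable _ measurableSet_Ioi
    intro y hy
    have hy1 : (1 : ℝ) < y := hy
    have hs1 : (((3 : ℝ) : ℂ) + y * I) ≠ 1 := by
      intro h
      have := congrArg Complex.re h
      simp at this
    apply ContinuousAt.continuousWithinAt
    have hd : DifferentiableAt ℂ (ff k δ P Q N) (((3 : ℝ) : ℂ) + y * I) := by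
      unfold ff
      refine ((Wf_differentiable k δ _).mul (gg_continuousAt N _ hs1)).mul ?_
      fun_prop
    exact ContinuousAt.comp (f := fun y : ℝ => ((3 : ℝ) : ℂ) + y * I) hd.continuousAt
      (by fun_prop)
  · refine (norm_integral_le_of_norm_le hbi hb).trans ?_
    rw [integral_const_mul]
    have hC := C2_nonneg
    calc _ ≤ Real.exp (5 / 2 * δ) * (C2 / N) * (P : ℝ) ^ (5 / 2 : ℝ) * 1 := by
          gcongr
          exact (om_shift_integrable k δ hδ).2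
      _ = _ := mul_one _

/-- the remainder part -/
lemma rem_bound (k : ℕ) (δ : ℝ) (hδ : 0 < δ) (P Q N : ℕ) (hP : 1 ≤ P) (hQ : 1 ≤ Q) (hN : 0 < N) :
    ‖∫ t in Set.Ioi (0 : ℝ), (om k δ t : ℂ) * (gg N (cl t) * ef (fr P Q) t)‖ ≤
      δ ^ (k + 1) * ((216 * 4 ^ 6 + (N : ℝ) ^ 4) * 64) +
        (Real.exp (5 / 2 * δ) * (C2 / N) * (P : ℝ) ^ (5 / 2 : ℝ) + 5 / 2 * mj k δ P N 1) := by
  have hint := ff_cl_integrable k δ hδ P Q N
  have hsplit : ∫ t in Set.Ioi (0 : ℝ), (om k δ t : ℂ) * (gg N (cl t) * ef (fr P Q) t) =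
      (∫ t in Set.Ioc (0 : ℝ) 1, (om k δ t : ℂ) * (gg N (cl t) * ef (fr P Q) t)) +
        ∫ t in Set.Ioi (1 : ℝ), (om k δ t : ℂ) * (gg N (cl t) * ef (fr P Q) t) := by
    rw [← Set.Ioc_union_Ioi_eq_Ioi (zero_le_one (α := ℝ))]
    apply setIntegral_union
    · exact Set.Ioc_disjoint_Ioi le_rfl
    · exact measurableSet_Ioi
    · exact hint.mono_set Set.Ioc_subset_Ioi_self
    · exact hint.mono_set (Set.Ioi_subset_Ioi zero_le_one)
  rw [hsplit]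
  refine (norm_add_le _ _).trans (add_le_add ?_ ?_)
  · have h := norm_setIntegral_le_of_norm_le_const (μ := volume) (s := Set.Ioc (0 : ℝ) 1)
      (f := fun t : ℝ => (om k δ t : ℂ) * (gg N (cl t) * ef (fr P Q) t))
      (C := δ ^ (k + 1) * ((216 * 4 ^ 6 + (N : ℝ) ^ 4) * 64)) (by simp) (by
        intro t ht
        have ht0 : 0 ≤ t := ht.1.le
        rw [norm_mul, norm_mul, ef_norm, mul_one, Complex.norm_real, Real.norm_eq_abs,
          abs_of_nonneg (om_nonneg k δ t hδ.le ht0)]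
        have h1 := gg_norm_le N (cl t) (by rw [cl_re]) (by rw [cl_re]; norm_num)
          (by rw [cl_im]; exact ht0) (cl_sub_one t)
        rw [cl_im] at h1
        have h2 : (1 + t) ^ 6 ≤ 64 := by
          calc (1 + t) ^ 6 ≤ 2 ^ 6 := by
                apply pow_le_pow_left₀ (by linarith)
                linarith [ht.2]
            _ = 64 := by norm_num
        have h3 : om k δ t ≤ δ ^ (k + 1) := by
          unfold om
          have e1 : t ^ k ≤ 1 := pow_le_one₀ ht0 ht.2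
          have e2 : Real.exp (-(δ * t)) ≤ 1 := by
            rw [Real.exp_le_one_iff]
            have := mul_nonneg hδ.le ht0
            linarith
          have e3 : (1 : ℝ) ≤ (k.factorial : ℝ) := by exact_mod_cast Nat.factorial_pos k
          calc δ ^ (k + 1) * t ^ k * Real.exp (-(δ * t)) / (k.factorial : ℝ)
              ≤ δ ^ (k + 1) * 1 * 1 / 1 := by gcongr
            _ = δ ^ (k + 1) := by ring
        calc om k δ t * ‖gg N (cl t)‖ ≤
            δ ^ (k + 1) * ((216 * 4 ^ 6 + (N : ℝ) ^ 4) * (1 + t) ^ 6) := by gcongr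
          _ ≤ δ ^ (k + 1) * ((216 * 4 ^ 6 + (N : ℝ) ^ 4) * 64) := by gcongr)
    refine h.trans (le_of_eq ?_)
    simp
  · have hcl : ∀ y : ℝ, ((1 / 2 : ℝ) : ℂ) + y * I = cl y := fun y => by
      unfold cl
      push_cast
      ring
    have h := shift (ff k δ P Q N) (mj k δ P N) (ff_differentiableOn k δ P Q N)
      (mj_tendsto k δ hδ P N)
      (fun s h1 h2 h3 => ff_norm_le k δ hδ P Q N hP hQ s h1 h2 h3) (by
        simp_rw [hcl, ff_cl]
        exact hint.mono_set (Set.Ioi_subset_Ioi zero_le_one))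
      (right_line k δ hδ P Q N hP hQ hN).1
    simp_rw [hcl, ff_cl] at h
    refine h.trans ?_
    exact add_le_add (right_line k δ hδ P Q N hP hQ hN).2 le_rfl

/-! ### The Dirichlet polynomial -/

/-- the polynomial part of the integrand -/
lemma poly_term (k : ℕ) (δ : ℝ) (P Q N : ℕ) (t : ℝ) :
    (om k δ t : ℂ) * (Pp N (cl t) * ef (fr P Q) t) =
      ∑ m ∈ range N, ((d2 m * (m : ℝ) ^ (-(1 / 2) : ℝ) : ℝ) : ℂ) *
        ((om k δ t : ℂ) * ef (fr P Q - Real.log m) t) := by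
  unfold Pp
  rw [sum_mul, mul_sum]
  apply sum_congr rfl
  intro m _
  rcases Nat.eq_zero_or_pos m with rfl | hm0
  · rw [d2_zero]
    simp
  · rw [cpow_cl m hm0, sub_eq_add_neg (fr P Q), ← ef_mul]
    push_cast
    ring

lemma poly_integrable (k : ℕ) (δ : ℝ) (hδ : 0 < δ) (P Q N : ℕ) :
    IntegrableOn (fun t : ℝ => (om k δ t : ℂ) * (Pp N (cl t) * ef (fr P Q) t)) (Set.Ioi 0) := by
  simp_rw [poly_term]
  apply integrable_finsetSum
  intro m _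
  exact (om_ef_integrable k δ hδ _).const_mul _

/-- one term which is not the diagonal one -/
lemma term_bound (k : ℕ) (δ : ℝ) (hδ : 0 < δ) (P Q N m : ℕ) (hP : 1 ≤ P) (hQ : 1 ≤ Q)
    (hm : m < N) (hne : Q * m ≠ P) :
    ‖((d2 m * (m : ℝ) ^ (-(1 / 2) : ℝ) : ℝ) : ℂ) *
        ∫ t in Set.Ioi (0 : ℝ), (om k δ t : ℂ) * ef (fr P Q - Real.log m) t‖ ≤
      (N : ℝ) ^ 3 * (2 * P * δ) ^ (k + 1) := by
  have hP0 : (0 : ℝ) < P := by exact_mod_cast hP
  rw [norm_mul, Complex.norm_real, Real.norm_eq_abs]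
  rcases Nat.eq_zero_or_pos m with rfl | hm0
  · rw [d2_zero, zero_mul, abs_zero, zero_mul]
    positivity
  · have hsep := log_sep (Q * m) P (Nat.mul_pos hQ hm0) hP hne
    have hQ0 : (Q : ℝ) ≠ 0 := by exact_mod_cast (by omega : Q ≠ 0)
    have hm00 : (m : ℝ) ≠ 0 := by exact_mod_cast (by omega : m ≠ 0)
    have efr : fr P Q - Real.log m = Real.log P - Real.log ((Q * m : ℕ) : ℝ) := by
      rw [fr_eq P Q hP hQ]
      push_cast
      rw [Real.log_mul hQ0 hm00]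
      ring
    rw [← efr] at hsep
    have hpos : 0 < |fr P Q - Real.log m| := lt_of_lt_of_le (by positivity) hsep
    have hne : fr P Q - Real.log m ≠ 0 := abs_pos.mp hpos
    have h1 := om_ef_norm_le k δ hδ _ hne
    have h2 : (δ / |fr P Q - Real.log m|) ^ (k + 1) ≤ (2 * P * δ) ^ (k + 1) := by
      apply pow_le_pow_left₀ (by positivity)
      rw [div_le_iff₀ hpos]
      calc δ = 2 * P * δ * (1 / (2 * (P : ℝ))) := by field_simp
        _ ≤ 2 * P * δ * |fr P Q - Real.log m| := by gcongr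
    have h3 : |d2 m * (m : ℝ) ^ (-(1 / 2) : ℝ)| ≤ (N : ℝ) ^ 3 := by
      rw [abs_of_nonneg (mul_nonneg (d2_nonneg m) (by positivity))]
      have h4 : (m : ℝ) ^ (-(1 / 2) : ℝ) ≤ 1 := by
        apply Real.rpow_le_one_of_one_le_of_nonpos
        · exact_mod_cast hm0
        · norm_num
      have h5 : (m : ℝ) ≤ N := by exact_mod_cast hm.le
      calc d2 m * (m : ℝ) ^ (-(1 / 2) : ℝ) ≤ (m : ℝ) ^ 3 * 1 := by
            apply mul_le_mul (d2_le m) h4 (by positivity) (by positivity)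
        _ = (m : ℝ) ^ 3 := mul_one _
        _ ≤ (N : ℝ) ^ 3 := by gcongr
    exact mul_le_mul h3 (h1.trans h2) (norm_nonneg _) (by positivity)

lemma poly_bound (k : ℕ) (δ : ℝ) (hδ : 0 < δ) (P Q N : ℕ) (hP : 1 ≤ P) (hQ : 1 ≤ Q)
    (hPQ : Nat.Coprime P Q) (hN : P < N) :
    ‖(∫ t in Set.Ioi (0 : ℝ), (om k δ t : ℂ) * (Pp N (cl t) * ef (fr P Q) t)) -
      (if Q = 1 then ((d2 P / Real.sqrt P : ℝ) : ℂ) else 0)‖ ≤ (N : ℝ) ^ 4 * (2 * P * δ) ^ (k + 1) := by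
  have hn0 : (0 : ℝ) < P := by exact_mod_cast hP
  have hNN : (N : ℝ) ^ 4 * (2 * P * δ) ^ (k + 1) =
      ∑ _m ∈ range N, (N : ℝ) ^ 3 * (2 * P * δ) ^ (k + 1) := by
    rw [sum_const, card_range, nsmul_eq_mul]
    ring
  simp_rw [poly_term]
  rw [integral_finsetSum _ (fun m _ => (om_ef_integrable k δ hδ _).const_mul _)]
  simp_rw [integral_const_mul]
  by_cases hQ1 : Q = 1
  · subst hQ1
    rw [if_pos rfl]
    have hfr : fr P 1 = Real.log P := by unfold fr; simp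
    rw [← Finset.add_sum_erase _ _ (mem_range.2 hN)]
    have e1 : ((d2 P * (P : ℝ) ^ (-(1 / 2) : ℝ) : ℝ) : ℂ) *
        ∫ t in Set.Ioi (0 : ℝ), (om k δ t : ℂ) * ef (fr P 1 - Real.log P) t =
        ((d2 P / Real.sqrt P : ℝ) : ℂ) := by
      rw [hfr, sub_self]
      simp_rw [ef_zero, mul_one]
      rw [om_integral k δ hδ, mul_one]
      congr 1
      rw [Real.rpow_neg hn0.le, ← Real.sqrt_eq_rpow, div_eq_mul_inv]
    rw [e1, add_sub_cancel_left]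
    refine (norm_sum_le _ _).trans ?_
    rw [hNN]
    calc _ ≤ ∑ _m ∈ (range N).erase P, (N : ℝ) ^ 3 * (2 * P * δ) ^ (k + 1) := by
          refine sum_le_sum fun m hm => ?_
          rw [mem_erase, mem_range] at hm
          exact term_bound k δ hδ P 1 N m hP le_rfl hm.2 (by rw [one_mul]; exact hm.1)
      _ ≤ _ := by
          apply sum_le_sum_of_subset_of_nonneg (erase_subset _ _)
          intro _ _ _
          positivity
  · rw [if_neg hQ1, sub_zero]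
    refine (norm_sum_le _ _).trans ?_
    rw [hNN]
    refine sum_le_sum fun m hm => ?_
    rw [mem_range] at hm
    refine term_bound k δ hδ P Q N m hP hQ hm ?_
    intro h
    have h1 : Q ∣ P := ⟨m, h.symm⟩
    have h2 : Q ∣ Nat.gcd P Q := Nat.dvd_gcd h1 dvd_rfl
    rw [hPQ] at h2
    exact hQ1 (Nat.dvd_one.mp h2)

/-- the bound before the choice of the parameters -/
lemma main_bound (k : ℕ) (δ : ℝ) (hδ : 0 < δ) (P Q N : ℕ) (hP : 1 ≤ P) (hQ : 1 ≤ Q)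
    (hPQ : Nat.Coprime P Q) (hN : P < N) :
    ‖(∫ t in Set.Ioi (0 : ℝ), (om k δ t : ℂ) * riemannZeta (cl t) ^ 2 * ef (fr P Q) t) -
      (if Q = 1 then ((d2 P / Real.sqrt P : ℝ) : ℂ) else 0)‖ ≤
      (N : ℝ) ^ 4 * (2 * P * δ) ^ (k + 1) +
      (δ ^ (k + 1) * ((216 * 4 ^ 6 + (N : ℝ) ^ 4) * 64) +
        (Real.exp (5 / 2 * δ) * (C2 / N) * (P : ℝ) ^ (5 / 2 : ℝ) + 5 / 2 * mj k δ P N 1)) := by
  have e : ∀ t : ℝ, (om k δ t : ℂ) * riemannZeta (cl t) ^ 2 * ef (fr P Q) t =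
      (om k δ t : ℂ) * (Pp N (cl t) * ef (fr P Q) t) +
        (om k δ t : ℂ) * (gg N (cl t) * ef (fr P Q) t) := by
    intro t
    unfold gg
    ring
  simp_rw [e]
  rw [integral_add (poly_integrable k δ hδ P Q N) (ff_cl_integrable k δ hδ P Q N),
    add_sub_right_comm]
  refine (norm_add_le _ _).trans (add_le_add ?_ ?_)
  · exact poly_bound k δ hδ P Q N hP hQ hPQ hN
  · exact rem_bound k δ hδ P Q N hP hQ (by omega)

/-- MB1. `∫ om ζ² (P/Q)^{it}` for coprime `P, Q`. -/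
theorem B2_part (ε : ℝ) (hε : 0 < ε) (hε1 : ε < 1) :
    ∀ᶠ T : ℝ in atTop, ∀ k : ℕ, kr' T k →
      ∀ P Q : ℕ, 1 ≤ P → 1 ≤ Q → Nat.Coprime P Q → (P : ℝ) ≤ T ^ (1 - ε) → (Q : ℝ) ≤ T →
        ‖(∫ t in Set.Ioi (0 : ℝ), (om k (k / T) t : ℂ) * riemannZeta (cl t) ^ 2 *
            ef (Real.log ((P : ℝ) / Q)) t) - (if Q = 1 then ((d2 P / Real.sqrt P : ℝ) : ℂ) else 0)‖ ≤
          T ^ (-1 : ℝ) := by
  have hE1 : ∀ᶠ T : ℝ in atTop, 16 * Real.log T ^ 2 ≤ T ^ (ε / 2) := by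
    have h := (isLittleO_log_rpow_rpow_atTop (s := ε / 2) 2 (by positivity)).bound
      (show (0 : ℝ) < 1 / 16 by norm_num)
    filter_upwards [h, eventually_ge_atTop 1] with T hT hT1
    rw [Real.norm_eq_abs, Real.norm_eq_abs, abs_of_nonneg (by
      have := Real.log_nonneg hT1
      positivity), abs_of_nonneg (by positivity)] at hT
    have e : Real.log T ^ (2 : ℝ) = Real.log T ^ 2 := by
      rw [← Real.rpow_natCast]
      norm_num
    rw [e] at hT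
    linarith
  have hE2 : ∀ᶠ T : ℝ in atTop, 48 / ε ≤ Real.log T ^ 2 :=
    ((tendsto_pow_atTop (two_ne_zero)).comp Real.tendsto_log_atTop).eventually_ge_atTop _
  have hE3 : ∀ᶠ T : ℝ in atTop, 4 * 10 ^ 9 + 3 * C2 ≤ T ^ (1 / 2 : ℝ) :=
    (tendsto_rpow_atTop (by norm_num)).eventually_ge_atTop _
  filter_upwards [hE1, hE2, hE3, eventually_ge_atTop 2] with T h1 h2 h3 h4 k hkr n Q hn hQ hPQ hnT hQT
  obtain ⟨hk1, hk2⟩ := hkr
  have hT0 : 0 < T := by linarith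
  have hT1 : 1 ≤ T := by linarith
  have hkpos : (0 : ℝ) < k := lt_of_lt_of_le (lt_of_lt_of_le (by positivity) h2) hk1
  set δ : ℝ := (k : ℝ) / T with hδdef
  have hδ : 0 < δ := div_pos hkpos hT0
  have hn0 : (0 : ℝ) < n := by exact_mod_cast hn
  have hn1 : (1 : ℝ) ≤ n := by exact_mod_cast hn
  have hC2 := C2_nonneg
  -- the small parameter
  have hx : 4 * (n : ℝ) * δ ≤ T ^ (-(ε / 2)) := by
    have e1 : T ^ (1 - ε) = T * (T ^ (-(ε / 2)) * T ^ (-(ε / 2))) := by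
      rw [← Real.rpow_add hT0, Real.rpow_sub hT0, Real.rpow_one, div_eq_mul_inv,
        ← Real.rpow_neg hT0.le]
      congr 2
      ring
    have e2 : T ^ (ε / 2) * T ^ (-(ε / 2)) = 1 := by
      rw [← Real.rpow_add hT0]
      simp
    have hy : 0 < T ^ (-(ε / 2)) := by positivity
    calc 4 * (n : ℝ) * δ ≤ 4 * T ^ (1 - ε) * (4 * Real.log T ^ 2 / T) := by
          rw [hδdef]
          gcongr
      _ = (16 * Real.log T ^ 2) * (T ^ (-(ε / 2)) * T ^ (-(ε / 2))) := by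
          rw [e1]
          field_simp
          ring
      _ ≤ T ^ (ε / 2) * (T ^ (-(ε / 2)) * T ^ (-(ε / 2))) := by gcongr
      _ = T ^ (-(ε / 2)) := by rw [← mul_assoc, e2, one_mul]
  have hx1 : 4 * δ ≤ T ^ (-(ε / 2)) := by
    refine le_trans ?_ hx
    nlinarith
  have hsmall : T ^ (-(ε / 2)) ≤ 1 :=
    Real.rpow_le_one_of_one_le_of_nonpos hT1 (by linarith)
  have hδ4 : δ ≤ 1 / 4 := by linarith
  have hX : (T ^ (-(ε / 2))) ^ (k + 1) ≤ (T ^ 24)⁻¹ := by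
    rw [← Real.rpow_natCast, ← Real.rpow_mul hT0.le, ← Real.rpow_natCast T 24,
      ← Real.rpow_neg hT0.le]
    apply Real.rpow_le_rpow_of_exponent_le hT1
    have h5 : 48 / ε ≤ k := h2.trans hk1
    rw [div_le_iff₀ hε] at h5
    push_cast
    nlinarith
  -- the four terms
  set N : ℕ := ⌈T ^ 4⌉₊ with hN
  have hN1 : T ^ 4 ≤ N := Nat.le_ceil _
  have hT4 : (1 : ℝ) ≤ T ^ 4 := one_le_pow₀ hT1
  have hN2 : (N : ℝ) ≤ 2 * T ^ 4 := by
    have := Nat.ceil_lt_add_one (show (0 : ℝ) ≤ T ^ 4 by positivity)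
    linarith
  have hNpos : (0 : ℝ) < N := lt_of_lt_of_le (by positivity) hN1
  have hnT' : (n : ℝ) ≤ T := by
    refine hnT.trans ?_
    calc T ^ (1 - ε) ≤ T ^ (1 : ℝ) := Real.rpow_le_rpow_of_exponent_le hT1 (by linarith)
      _ = T := Real.rpow_one T
  have hnN : n < N := by
    have h5 : (n : ℝ) < N := by
      refine lt_of_le_of_lt hnT' (lt_of_lt_of_le ?_ hN1)
      calc T = T * 1 := (mul_one T).symm
        _ < T * T ^ 3 := by
            apply mul_lt_mul_of_pos_left _ hT0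
            exact one_lt_pow₀ (by linarith) (by norm_num)
        _ = T ^ 4 := by ring
    exact_mod_cast h5
  have hN4 : (N : ℝ) ^ 4 ≤ 16 * T ^ 16 := by
    calc (N : ℝ) ^ 4 ≤ (2 * T ^ 4) ^ 4 := by gcongr
      _ = 16 * T ^ 16 := by ring
  have hK : 216 * 4 ^ 6 + (N : ℝ) ^ 4 ≤ 884752 * T ^ 16 := by
    have : (1 : ℝ) ≤ T ^ 16 := one_le_pow₀ hT1
    nlinarith
  have hXpos : 0 < (T ^ 24)⁻¹ := by positivity
  have hn52 : (n : ℝ) ^ (5 / 2 : ℝ) ≤ T ^ (5 / 2 : ℝ) := by gcongr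
  have hT52 : T ^ (5 / 2 : ℝ) ≤ T ^ 3 := by
    rw [← Real.rpow_natCast]
    apply Real.rpow_le_rpow_of_exponent_le hT1
    norm_num
  have hexp : Real.exp (5 / 2 * δ) ≤ 3 := by
    have h5 : Real.exp (5 / 2 * δ) ≤ Real.exp 1 := Real.exp_le_exp.mpr (by linarith)
    have := Real.exp_one_lt_d9
    linarith
  have t1 : (N : ℝ) ^ 4 * (2 * n * δ) ^ (k + 1) ≤ 16 * T ^ 16 * (T ^ 24)⁻¹ := by
    have h5 : (2 * (n : ℝ) * δ) ^ (k + 1) ≤ (T ^ 24)⁻¹ := by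
      refine le_trans ?_ hX
      apply pow_le_pow_left₀ (by positivity)
      refine le_trans ?_ hx
      have : 0 ≤ (n : ℝ) * δ := by positivity
      nlinarith
    gcongr
  have hδX : δ ^ (k + 1) ≤ (T ^ 24)⁻¹ := by
    refine le_trans ?_ hX
    apply pow_le_pow_left₀ hδ.le
    linarith
  have t2 : δ ^ (k + 1) * ((216 * 4 ^ 6 + (N : ℝ) ^ 4) * 64) ≤
      (T ^ 24)⁻¹ * ((884752 * T ^ 16) * 64) := by
    gcongr
  have t3 : Real.exp (5 / 2 * δ) * (C2 / N) * (n : ℝ) ^ (5 / 2 : ℝ) ≤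
      3 * C2 * T ^ (-(3 / 2) : ℝ) := by
    have e1 : T ^ (-(3 / 2) : ℝ) = (T ^ 4)⁻¹ * T ^ (5 / 2 : ℝ) := by
      rw [← Real.rpow_natCast, ← Real.rpow_neg hT0.le, ← Real.rpow_add hT0]
      norm_num
    calc Real.exp (5 / 2 * δ) * (C2 / N) * (n : ℝ) ^ (5 / 2 : ℝ) ≤
        3 * (C2 / T ^ 4) * T ^ (5 / 2 : ℝ) := by gcongr
      _ = _ := by rw [e1]; ring
  have t4 : 5 / 2 * mj k δ n N 1 ≤ 35 * 10 ^ 8 * (T ^ 5)⁻¹ := by
    have h5 : δ ^ (k + 1) * (7 / 2 : ℝ) ^ (k + 1) ≤ (T ^ 24)⁻¹ := by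
      rw [← mul_pow]
      refine le_trans ?_ hX
      apply pow_le_pow_left₀ (by positivity)
      linarith
    have hfac : (1 : ℝ) ≤ (k.factorial : ℝ) := by exact_mod_cast Nat.factorial_pos k
    have hexp2 : Real.exp (-(δ * (1 + 5 / 2))) ≤ 1 := by
      rw [Real.exp_le_one_iff]
      linarith
    unfold mj
    calc 5 / 2 * ((Real.exp (5 / 2 * δ) * (δ ^ (k + 1) / (k.factorial : ℝ)) *
          (216 * 4 ^ 6 + (N : ℝ) ^ 4) * (n : ℝ) ^ (5 / 2 : ℝ)) *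
          ((1 + 5 / 2) ^ (k + 6) * Real.exp (-(δ * (1 + 5 / 2)))))
        ≤ 5 / 2 * ((3 * (δ ^ (k + 1) / 1) * (884752 * T ^ 16) * T ^ 3) *
          ((1 + 5 / 2) ^ (k + 6) * 1)) := by
          gcongr
          exact hn52.trans hT52
      _ = 5 / 2 * (3 * (884752 * T ^ 16) * T ^ 3) * (7 / 2) ^ 5 *
          (δ ^ (k + 1) * (7 / 2 : ℝ) ^ (k + 1)) := by
          rw [show (1 + 5 / 2 : ℝ) = 7 / 2 by norm_num, show k + 6 = (k + 1) + 5 by ring,
            pow_add (7 / 2 : ℝ) (k + 1) 5]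
          ring
      _ ≤ 5 / 2 * (3 * (884752 * T ^ 16) * T ^ 3) * (7 / 2) ^ 5 * (T ^ 24)⁻¹ := by
          gcongr
      _ = 5 / 2 * 3 * 884752 * (7 / 2) ^ 5 * (T ^ 5)⁻¹ := by
          field_simp
      _ ≤ 35 * 10 ^ 8 * (T ^ 5)⁻¹ := by
          apply mul_le_mul_of_nonneg_right _ (by positivity)
          norm_num
  have hmain := main_bound k δ hδ n Q N hn hQ hPQ hnN
  unfold fr at hmain
  refine hmain.trans ?_
  have e32 : T ^ (-1 : ℝ) = T ^ (1 / 2 : ℝ) * T ^ (-(3 / 2) : ℝ) := by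
    rw [← Real.rpow_add hT0]
    norm_num
  have hs0 : 0 < T ^ (-(3 / 2) : ℝ) := by positivity
  have hs5 : (T ^ 5)⁻¹ ≤ T ^ (-(3 / 2) : ℝ) := by
    rw [← Real.rpow_natCast, ← Real.rpow_neg hT0.le]
    apply Real.rpow_le_rpow_of_exponent_le hT1
    norm_num
  have hs8 : T ^ 16 * (T ^ 24)⁻¹ ≤ T ^ (-(3 / 2) : ℝ) := by
    have e1 : T ^ 16 * (T ^ 24)⁻¹ = (T ^ 8)⁻¹ := by
      field_simp
    rw [e1, ← Real.rpow_natCast, ← Real.rpow_neg hT0.le]
    apply Real.rpow_le_rpow_of_exponent_le hT1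
    norm_num
  calc (N : ℝ) ^ 4 * (2 * n * δ) ^ (k + 1) +
      (δ ^ (k + 1) * ((216 * 4 ^ 6 + (N : ℝ) ^ 4) * 64) +
        (Real.exp (5 / 2 * δ) * (C2 / N) * (n : ℝ) ^ (5 / 2 : ℝ) + 5 / 2 * mj k δ n N 1))
      ≤ 16 * T ^ 16 * (T ^ 24)⁻¹ + ((T ^ 24)⁻¹ * ((884752 * T ^ 16) * 64) +
        (3 * C2 * T ^ (-(3 / 2) : ℝ) + 35 * 10 ^ 8 * (T ^ 5)⁻¹)) :=
        add_le_add t1 (add_le_add t2 (add_le_add t3 t4))
    _ = (16 + 884752 * 64) * (T ^ 16 * (T ^ 24)⁻¹) + 3 * C2 * T ^ (-(3 / 2) : ℝ) +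
        35 * 10 ^ 8 * (T ^ 5)⁻¹ := by ring
    _ ≤ (16 + 884752 * 64) * T ^ (-(3 / 2) : ℝ) + 3 * C2 * T ^ (-(3 / 2) : ℝ) +
        35 * 10 ^ 8 * T ^ (-(3 / 2) : ℝ) :=
        add_le_add (add_le_add (mul_le_mul_of_nonneg_left hs8 (by norm_num)) le_rfl)
          (mul_le_mul_of_nonneg_left hs5 (by norm_num))
    _ = (16 + 884752 * 64 + 35 * 10 ^ 8 + 3 * C2) * T ^ (-(3 / 2) : ℝ) := by ring
    _ ≤ (4 * 10 ^ 9 + 3 * C2) * T ^ (-(3 / 2) : ℝ) := by
        apply mul_le_mul_of_nonneg_right _ hs0.le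
        linarith
    _ ≤ T ^ (1 / 2 : ℝ) * T ^ (-(3 / 2) : ℝ) := mul_le_mul_of_nonneg_right h3 hs0.le
    _ = T ^ (-1 : ℝ) := e32.symm

end

end Pool.Agent.H697.EM.MB1
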